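import Pool.Agent.H86.CMLib9.W5h86.LX.Br6

set_option autoImplicit false

/-!
# Rank two: annihilation
-/

open Module Function Polynomial

noncomputable section

namespace Pool.Agent.W5h86.LX

open Pool.Agent.Y102 Pool.Agent.W516.DR Pool.Agent.W516.KC Pool.Agent.W5h86.LZ Pool.Agent.W5h86.LY

variable {g : ℕ} {A : AbVar g} {P : Module.End ℚ A.H1}
  {M : (Fin g → ℂ) →ₗ[ℂ] (Fin g → ℂ)} {e : Basis (Fin g) ℂ (Fin g → ℂ)} {t : Fin g → ℝ}
  {i0 : Fin g}

section KR

variable {κ : Type} [Fintype κ] [DecidableEq κ]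

/-- annihilation of a real multilinear form by a real operator -/
def KR (Y : (Fin g → ℂ) →ₗ[ℝ] (Fin g → ℂ))
    (F : MultilinearMap ℝ (fun _ : κ => Fin g → ℂ) ℝ) : Prop :=
  ∀ u, ∑ p, F (update u p (Y (u p))) = 0

lemma KR.add {Y Y' : (Fin g → ℂ) →ₗ[ℝ] (Fin g → ℂ)}
    {F : MultilinearMap ℝ (fun _ : κ => Fin g → ℂ) ℝ} (h : KR Y F) (h' : KR Y' F) :
    KR (Y + Y') F := by
  intro u
  have h1 := h u
  have h2 := h' u
  simp only [LinearMap.add_apply, MultilinearMap.map_update_add, Finset.sum_add_distrib]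
  rw [h1, h2, add_zero]

lemma KR.smul {Y : (Fin g → ℂ) →ₗ[ℝ] (Fin g → ℂ)}
    {F : MultilinearMap ℝ (fun _ : κ => Fin g → ℂ) ℝ} (h : KR Y F) (c : ℝ) : KR (c • Y) F := by
  intro u
  have h1 := h u
  simp only [LinearMap.smul_apply, MultilinearMap.map_update_smul, ← Finset.smul_sum]
  rw [h1, smul_zero]

end KR

lemma span_ab {ι : Type} [Fintype ι] [DecidableEq ι] {U : Submodule ℂ (ι → ℂ)} {H : Matrix ι ι ℂ}
    (hH : H.IsHermitian) (h2 : finrank ℂ U = 2) {a b : ι → ℂ} (ha : a ∈ U) (hb : b ∈ U)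
    (haa : hf H a a = 0) (hbb : hf H b b = 0) (hab : hf H a b = 1) {u : ι → ℂ} (hu : u ∈ U) :
    u = hf H b u • a + hf H a u • b := by
  have hba : hf H b a = 1 := by rw [hf_swap hH, hab, star_one]
  have hli : LinearIndependent ℂ (![a, b] : Fin 2 → ι → ℂ) := by
    rw [LinearIndependent.pair_iff]
    intro s t hst
    have h3 : hf H b (s • a + t • b) = s := by
      rw [hf_add_right, hf_smul_right, hf_smul_right, hba, hbb]
      ring
    have h4 : hf H a (s • a + t • b) = t := by
      rw [hf_add_right, hf_smul_right, hf_smul_right, haa, hab]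
      ring
    rw [hst, hf_zero_right] at h3 h4
    exact ⟨h3.symm, h4.symm⟩
  have hU : Submodule.span ℂ {a, b} = U := by
    apply Submodule.eq_of_le_of_finrank_eq
    · rw [Submodule.span_le]
      rintro x (rfl | rfl)
      · exact ha
      · exact hb
    · rw [h2]
      have h3 := finrank_span_eq_card hli
      rw [Matrix.range_cons, Matrix.range_cons, Matrix.range_empty, Set.union_empty,
        Set.singleton_union, Fintype.card_fin] at h3
      exact h3
  rw [← hU, Submodule.mem_span_pair] at hu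
  obtain ⟨x, y, rfl⟩ := hu
  rw [hf_add_right, hf_smul_right, hf_smul_right, hf_add_right, hf_smul_right, hf_smul_right, hba,
    hbb, haa, hab]
  simp

/-- the decomposition of the space -/
lemma exists_dec (h : Setup2 A P M e t i0) (h2 : finrank ℂ (UU t i0) = 2) {a b : Fin g → ℂ}
    (ha : a ∈ UU t i0) (hb : b ∈ UU t i0) (haa : hf (HA A e i0) a a = 0)
    (hbb : hf (HA A e i0) b b = 0) (hab : hf (HA A e i0) a b = 1) (z : Fin g → ℂ) :
    ∃ w, theta e i0 w ∈ VV e t i0 ∧
      z = hf (HA A e i0) b z • a + hf (HA A e i0) a z • b + w ∧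
      ∀ u ∈ UU t i0, hf (HA A e i0) u w = 0 := by
  set u : Fin g → ℂ := fun i => if sc t i0 i = t i0 then z i else 0 with hu
  have huU : u ∈ UU t i0 := by
    rw [mem_UU]
    intro i hi
    rw [hu]
    beta_reduce
    rw [if_neg hi]
  have hw : ∀ i, sc t i0 i = t i0 → (z - u) i = 0 := by
    intro i hi
    rw [Pi.sub_apply, hu]
    beta_reduce
    rw [if_pos hi, sub_self]
  have horth : ∀ x ∈ UU t i0, hf (HA A e i0) x (z - u) = 0 := by
    intro x hx
    have hx' := (mem_UU x).1 hx
    have o1 := h.orth1 hx' hw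
    have o2 := h.orth1 (z := x) (w := Complex.I • (z - u)) hx' (fun i hi => by
      rw [Pi.smul_apply, hw i hi, smul_zero])
    rw [hf_Hm h.cx, Jc_theta, o1, o2]
    simp
  refine ⟨z - u, ?_, ?_, horth⟩
  · rw [mem_VV]
    exact hw
  · have h3 := span_ab (Hm_herm h.cx) h2 ha hb haa hbb hab huU
    have h4 : hf (HA A e i0) b z = hf (HA A e i0) b u := by
      have h5 := horth b hb
      rw [hf_sub_right, sub_eq_zero] at h5
      exact h5
    have h5 : hf (HA A e i0) a z = hf (HA A e i0) a u := by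
      have h5 := horth a ha
      rw [hf_sub_right, sub_eq_zero] at h5
      exact h5
    rw [h4, h5, ← h3, add_sub_cancel]

/-- the operator of the multiplication -/
lemma YY_P (h : Setup2 A P M e t i0) {z : Fin g → ℂ} (hz : z ∈ UU t i0) :
    YY A (t i0 ^ 2) (-(P * P)) P (theta e i0 z) =
      (aeval (t i0 ^ 2 : ℝ) (derivative (minpoly ℚ (t i0 ^ 2 : ℝ))) * t i0) •
        theta e i0 (Complex.I • z) := by
  obtain ⟨-, hρ⟩ := rho_int h
  have hzU := (mem_UU z).1 hz
  have h0 : extA A P (theta e i0 z) = M (theta e i0 z) := by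
    rw [extA_apply, ext_eq h.hM]
  rw [YY_eq hρ, Module.End.mul_apply, h0, M_theta h.he]
  have h1 : (fun i => (sc t i0 i * Complex.I) * z i) = (t i0 : ℝ) • (Complex.I • z) := by
    funext i
    rw [Pi.smul_apply, Pi.smul_apply, Complex.real_smul, smul_eq_mul]
    by_cases hi : sc t i0 i = t i0
    · rw [hi]
      ring
    · rw [hzU i hi]
      ring
  rw [h1, map_smul, map_smul]
  have h2 : extA A (-(P * P)) (theta e i0 (Complex.I • z)) =
      (t i0 ^ 2 : ℝ) • theta e i0 (Complex.I • z) := by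
    rw [extA_apply, h.sq, ← map_smul]
    congr 1
    funext i
    simp only [Pi.smul_apply, Complex.real_smul, smul_eq_mul]
    by_cases hi : sc t i0 i = t i0
    · rw [hi]
    · rw [hzU i hi, mul_zero, mul_zero, mul_zero]
  have h3 : ∀ q : ℝ[X], aeval (extA A (-(P * P))) q (theta e i0 (Complex.I • z)) =
      (q.eval (t i0 ^ 2 : ℝ)) • theta e i0 (Complex.I • z) := by
    intro q
    induction q using Polynomial.induction_on' with
    | add p q hp hq => rw [map_add, LinearMap.add_apply, hp, hq, eval_add, add_smul]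
    | monomial n a =>
      rw [aeval_monomial, eval_monomial, Module.End.mul_apply, Module.algebraMap_end_apply]
      have h3 : (extA A (-(P * P)) ^ n) (theta e i0 (Complex.I • z)) =
          ((t i0 ^ 2 : ℝ) ^ n) • theta e i0 (Complex.I • z) := by
        induction n with
        | zero => rw [pow_zero, pow_zero, one_smul, Module.End.one_apply]
        | succ n ih =>
          rw [pow_succ', Module.End.mul_apply, ih, map_smul, h2, smul_smul, ← pow_succ]
      rw [h3, smul_smul]
  rw [h3, eval_minpolyDiv_self, smul_smul, mul_comm]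

lemma c0_ne (h : Setup2 A P M e t i0) :
    aeval (t i0 ^ 2 : ℝ) (derivative (minpoly ℚ (t i0 ^ 2 : ℝ))) * t i0 ≠ 0 := by
  obtain ⟨-, hρ⟩ := rho_int h
  refine mul_ne_zero ?_ ?_
  · exact (minpoly.irreducible hρ).separable.aeval_derivative_ne_zero (minpoly.aeval _ _)
  · have h1 := h.hd i0 i0
    rw [sc_same] at h1
    intro h2
    rw [h2] at h1
    apply h1
    ring

/-- **The operators of the place.** -/
theorem killsU (h : Setup2 A P M e t i0) (h2 : finrank ℂ (UU t i0) = 2)
    {κ : Type} [Fintype κ] [DecidableEq κ] {F : MultilinearMap ℝ (fun _ : κ => Fin g → ℂ) ℝ}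
    (hF1 : ∀ Y ∈ A.CR A.LA, KR Y F) (hsimple : ∀ Q ∈ A.EA, Q ≠ 0 → Function.Injective Q)
    (hPs : IsSkew A.om P) (hF2 : KR (YY A (t i0 ^ 2) (-(P * P)) P) F)
    {Y : (Fin g → ℂ) →ₗ[ℝ] (Fin g → ℂ)} (hY0 : ∀ v, Y (M v) = M (Y v))
    (hY1 : ∀ v, ∃ u ∈ UU t i0, Y v = theta e i0 u)
    (hY2 : ∀ v ∈ VV e t i0, Y v = 0) (hY3 : ∀ u v, A.E (Y u) v + A.E u (Y v) = 0) : KR Y F := by
  have hud := udat2 h h2.ge
  obtain ⟨a, b, ha, hb, haa, hbb, hab, ⟨T1, hT1, e1⟩, ⟨T2, hT2, e2⟩, ⟨T3, hT3, e3⟩⟩ := hud.frame h2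
  obtain ⟨X, rfl⟩ := exists_tr h.cx (h.J_comm' hY0)
  have hba : hf (HA A e i0) b a = 1 := by rw [hf_swap (Hm_herm h.cx), hab, star_one]
  have hXU : ∀ u, X.mulVec u ∈ UU t i0 := by
    intro u
    obtain ⟨u', hu', h3⟩ := hY1 (theta e i0 u)
    rw [tr_theta] at h3
    rw [(theta e i0).injective h3]
    exact hu'
  have hsk := skew_Hm h.cx hY3
  set α := hf (HA A e i0) b (X.mulVec a) with hα
  set β := hf (HA A e i0) a (X.mulVec a) with hβ
  set γ := hf (HA A e i0) b (X.mulVec b) with hγ
  set δ := hf (HA A e i0) a (X.mulVec b) with hδ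
  have hXa : X.mulVec a = α • a + β • b :=
    span_ab (Hm_herm h.cx) h2 ha hb haa hbb hab (hXU a)
  have hXb : X.mulVec b = γ • a + δ • b :=
    span_ab (Hm_herm h.cx) h2 ha hb haa hbb hab (hXU b)
  have s1 : star β + β = 0 := by
    have h3 := hf_skew hsk a a
    rw [hf_swap (Hm_herm h.cx) a (X.mulVec a)] at h3
    exact h3
  have s2 : star γ + γ = 0 := by
    have h3 := hf_skew hsk b b
    rw [hf_swap (Hm_herm h.cx) b (X.mulVec b)] at h3
    exact h3
  have s3 : star α + δ = 0 := by
    have h3 := hf_skew hsk a b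
    rw [hf_swap (Hm_herm h.cx) b (X.mulVec a)] at h3
    exact h3
  clear_value α β γ δ
  have him : ∀ z : ℂ, star z + z = 0 → z = z.im * Complex.I := by
    intro z hz
    have h3 : z.re = 0 := by
      have h4 := congrArg Complex.re hz
      simp only [Complex.star_def, Complex.add_re, Complex.conj_re, Complex.zero_re] at h4
      linarith
    apply Complex.ext
    · simp [h3]
    · simp
  have hβI := him β s1
  have hγI := him γ s2
  have hαI : α = α.re + α.im * Complex.I := (Complex.re_add_im α).symm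
  have hδI : δ = -α.re + α.im * Complex.I := by
    have h3 : δ = -star α := by linear_combination s3
    rw [h3]
    apply Complex.ext
    · simp
    · simp
  set c0 := aeval (t i0 ^ 2 : ℝ) (derivative (minpoly ℚ (t i0 ^ 2 : ℝ))) * t i0 with hc0
  have hc0n : c0 ≠ 0 := c0_ne h
  have hYP : ∀ z, YY A (t i0 ^ 2) (-(P * P)) P (theta e i0 z) = c0 • theta e i0
      (Complex.I • (hf (HA A e i0) b z • a + hf (HA A e i0) a z • b)) := by
    intro z
    obtain ⟨w, hw, hz, -⟩ := exists_dec h h2 ha hb haa hbb hab z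
    have h3 : theta e i0 z = theta e i0 (hf (HA A e i0) b z • a + hf (HA A e i0) a z • b) +
        theta e i0 w := by
      rw [← map_add, ← hz]
    rw [h3, map_add, (YY_props h hsimple hPs hPs rfl).2.2.1 _ hw, add_zero, YY_P h
      ((UU t i0).add_mem ((UU t i0).smul_mem _ ha) ((UU t i0).smul_mem _ hb))]
  have hmain : tr (theta e i0) X = α.re • tr (theta e i0) T3 + β.im • tr (theta e i0) T2 +
      γ.im • tr (theta e i0) T1 + (α.im * c0⁻¹) • YY A (t i0 ^ 2) (-(P * P)) P := by
    refine LinearMap.ext fun v => ?_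
    obtain ⟨z, rfl⟩ := (theta e i0).surjective v
    obtain ⟨w, hw, hz, -⟩ := exists_dec h h2 ha hb haa hbb hab z
    have hXw : X.mulVec w = 0 := by
      have h3 := hY2 _ hw
      rw [tr_theta] at h3
      exact (theta e i0).injective (by rw [h3, map_zero])
    simp only [LinearMap.add_apply, LinearMap.smul_apply]
    rw [hYP, smul_smul, mul_assoc, inv_mul_cancel₀ hc0n, mul_one, tr_theta, tr_theta, tr_theta,
      tr_theta, e1, e2, e3, ← map_smul, ← map_smul, ← map_smul, ← map_smul, ← map_add, ← map_add,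
      ← map_add]
    congr 1
    conv_lhs => rw [hz]
    rw [Matrix.mulVec_add, Matrix.mulVec_add, Matrix.mulVec_smul, Matrix.mulVec_smul, hXw, hXa, hXb,
      add_zero]
    funext i
    simp only [Pi.add_apply, Pi.sub_apply, Pi.smul_apply, smul_eq_mul, Complex.real_smul]
    conv_lhs => rw [hαI, hβI, hγI, hδI]
    ring
  rw [hmain]
  exact ((((hF1 _ hT3).smul _).add ((hF1 _ hT2).smul _)).add ((hF1 _ hT1).smul _)).add
    (hF2.smul _)

/-- the Lie algebra is perfect if it has no centre -/
lemma LA_perfect (hc : ∀ X ∈ A.LA, X ∈ A.EA → X = 0) {S : Submodule ℚ (Module.End ℚ A.H1)}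
    (h1 : ∀ X ∈ A.LA, ∀ Y ∈ A.LA, X * Y - Y * X ∈ S) : A.LA ≤ S := by
  intro Z hZ
  by_contra hcon
  let T : Submodule ℚ (Module.End ℚ A.H1) := S ⊓ A.LA
  have hZT : Z ∉ T := fun h => hcon h.1
  obtain ⟨f, hf1, hf2⟩ := Submodule.exists_dual_map_eq_bot_of_notMem hZT inferInstance
  let f' : Module.Dual ℚ A.LA := f.comp A.LA.subtype
  let W := (Pool.Agent.W516.KC2.trE A.LA A.trace_LA).symm f'
  have hW : ∀ X : A.LA, LinearMap.trace ℚ A.H1 (W.1 * X.1) = f X.1 := fun X =>
    Pool.Agent.W516.KC2.trE_symm A.LA A.trace_LA f' X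
  have hf0 : ∀ X ∈ T, f X = 0 := by
    intro X hX
    have h3 : f X ∈ Submodule.map f T := Submodule.mem_map_of_mem hX
    rwa [hf2, Submodule.mem_bot] at h3
  -- `W` is central
  have hcen : ∀ Y ∈ A.LA, Y * W.1 = W.1 * Y := by
    intro Y hY
    have h4 : W.1 * Y - Y * W.1 = 0 := by
      refine A.trace_LA _ (A.LA_bracket W.2 hY) fun X hX => ?_
      have h5 := hW ⟨_, A.LA_bracket hY hX⟩
      rw [hf0 _ ⟨h1 Y hY X hX, A.LA_bracket hY hX⟩] at h5
      rw [← h5, sub_mul, mul_sub, map_sub, map_sub, mul_assoc W.1 Y X, mul_assoc Y W.1 X,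
        LinearMap.trace_mul_comm ℚ Y (W.1 * X), mul_assoc W.1 X Y]
    rw [sub_eq_zero] at h4
    exact h4.symm
  have hW0 : W.1 = 0 := hc W.1 W.2 hcen
  apply hf1
  rw [← hW ⟨Z, hZ⟩, hW0, zero_mul, map_zero]

/-- **The centre of the Lie algebra is not zero.** -/
theorem exists_central (h : Setup2 A P M e t i0) (h2 : finrank ℂ (UU t i0) = 2) :
    ∃ X ∈ A.LA, X ∈ A.EA ∧ X ≠ 0 := by
  by_contra hcon
  push Not at hcon
  have hud := udat2 h h2.ge
  obtain ⟨a, b, ha, hb, haa, hbb, hab, ⟨T1, hT1, e1⟩, ⟨T2, hT2, e2⟩, ⟨T3, hT3, e3⟩⟩ := hud.frame h2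
  have hba : hf (HA A e i0) b a = 1 := by rw [hf_swap (Hm_herm h.cx), hab, star_one]
  have him : ∀ z : ℂ, star z + z = 0 → z = z.im * Complex.I := by
    intro z hz
    have h3 : z.re = 0 := by
      have h4 := congrArg Complex.re hz
      simp only [Complex.star_def, Complex.add_re, Complex.conj_re, Complex.zero_re] at h4
      linarith
    apply Complex.ext
    · simp [h3]
    · simp
  -- the coefficients
  have hco : ∀ X ∈ 𝔥A A e i0, ∃ (x y z w : ℝ),
      X.mulVec a = ((x : ℂ) + y * Complex.I) • a + (z * Complex.I : ℂ) • b ∧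
      X.mulVec b = (w * Complex.I : ℂ) • a + (-x + y * Complex.I : ℂ) • b ∧
      y = (hf (HA A e i0) b (X.mulVec a)).im := by
    intro X hX
    have hXa := span_ab (Hm_herm h.cx) h2 ha hb haa hbb hab (hud.st X hX a ha)
    have hXb := span_ab (Hm_herm h.cx) h2 ha hb haa hbb hab (hud.st X hX b hb)
    have hsk := hud.skew X hX
    set α := hf (HA A e i0) b (X.mulVec a) with hα
    set β := hf (HA A e i0) a (X.mulVec a) with hβ
    set γ := hf (HA A e i0) b (X.mulVec b) with hγ
    set δ := hf (HA A e i0) a (X.mulVec b) with hδ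
    have s1 : star β + β = 0 := by
      have h3 := hf_skew hsk a a
      rw [hf_swap (Hm_herm h.cx) a (X.mulVec a)] at h3
      exact h3
    have s2 : star γ + γ = 0 := by
      have h3 := hf_skew hsk b b
      rw [hf_swap (Hm_herm h.cx) b (X.mulVec b)] at h3
      exact h3
    have s3 : star α + δ = 0 := by
      have h3 := hf_skew hsk a b
      rw [hf_swap (Hm_herm h.cx) b (X.mulVec a)] at h3
      exact h3
    refine ⟨α.re, α.im, β.im, γ.im, ?_, ?_, rfl⟩
    · rw [Complex.re_add_im, ← him β s1]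
      exact hXa
    · rw [← him γ s2]
      have h3 : (-α.re + α.im * Complex.I : ℂ) = δ := by
        have h4 : δ = -star α := by linear_combination s3
        rw [h4]
        apply Complex.ext
        · simp
        · simp
      rw [h3]
      exact hXb
  -- the functional
  have hco' : ∀ X : Matrix (Fin g) (Fin g) ℂ, (theta e i0).symm (tr (theta e i0) X
      (theta e i0 a)) = X.mulVec a := fun X => by
    rw [tr_theta, LinearEquiv.symm_apply_apply]
  let τ : ((Fin g → ℂ) →ₗ[ℝ] (Fin g → ℂ)) →ₗ[ℝ] ℝ :=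
    { toFun := fun Y => (hf (HA A e i0) b ((theta e i0).symm (Y (theta e i0 a)))).im
      map_add' := fun Y Y' => by
        rw [LinearMap.add_apply, map_add, hf_add_right, Complex.add_im]
      map_smul' := fun c Y => by
        rw [LinearMap.smul_apply, map_smul, RingHom.id_apply, smul_eq_mul]
        have h3 : c • (theta e i0).symm (Y (theta e i0 a)) =
            (c : ℂ) • (theta e i0).symm (Y (theta e i0 a)) := by
          funext i
          simp
        rw [h3, hf_smul_right, Complex.im_ofReal_mul] }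
  have hτ : ∀ Y, τ Y = (hf (HA A e i0) b ((theta e i0).symm (Y (theta e i0 a)))).im := fun Y => rfl
  have hmemh : ∀ X ∈ A.LA, ∃ X' ∈ 𝔥A A e i0, tr (theta e i0) X' = A.ext X := by
    intro X hX
    have h3 : A.ext X ∈ A.CR A.LA := Submodule.subset_span ⟨X, hX, rfl⟩
    obtain ⟨X', hX'⟩ := exists_tr h.cx (h.J_comm h3)
    exact ⟨X', by rw [Submodule.mem_comap, hX']; exact h3, hX'⟩
  let S : Submodule ℚ (Module.End ℚ A.H1) :=
    { carrier := {X | τ (A.ext X) = 0}
      zero_mem' := by
        change τ (A.ext 0) = 0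
        rw [← extA_apply, map_zero, map_zero]
      add_mem' := by
        intro X Y hX hY
        change τ (A.ext (X + Y)) = 0
        have hX' : τ (A.ext X) = 0 := hX
        have hY' : τ (A.ext Y) = 0 := hY
        rw [← extA_apply, map_add, map_add, extA_apply, extA_apply, hX', hY', add_zero]
      smul_mem' := by
        intro c X hX
        change τ (A.ext (c • X)) = 0
        have hX' : τ (A.ext X) = 0 := hX
        have h3 : A.ext (c • X) = (c : ℝ) • A.ext X := by
          rw [← extA_apply, map_smul]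
          refine LinearMap.ext fun v => ?_
          rw [LinearMap.smul_apply, LinearMap.smul_apply]
          exact (Rat.cast_smul_eq_qsmul ℝ c _).symm
        rw [h3, map_smul, hX', smul_zero] }
  have hS : A.LA ≤ S := by
    refine LA_perfect hcon fun X hX Y hY => ?_
    change τ (A.ext (X * Y - Y * X)) = 0
    obtain ⟨X', hX', hXe⟩ := hmemh X hX
    obtain ⟨Y', hY', hYe⟩ := hmemh Y hY
    have h3 : A.ext (X * Y - Y * X) = tr (theta e i0) (X' * Y' - Y' * X') := by
      rw [← extA_apply, map_sub, map_mul, map_mul, map_sub, tr_mul, tr_mul, hXe, hYe]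
      rfl
    rw [h3, hτ, hco', Matrix.sub_mulVec, ← Matrix.mulVec_mulVec, ← Matrix.mulVec_mulVec]
    obtain ⟨x1, y1, z1, w1, p1, q1, -⟩ := hco X' hX'
    obtain ⟨x2, y2, z2, w2, p2, q2, -⟩ := hco Y' hY'
    rw [p1, p2, Matrix.mulVec_add, Matrix.mulVec_add, Matrix.mulVec_smul, Matrix.mulVec_smul,
      Matrix.mulVec_smul, Matrix.mulVec_smul, p1, p2, q1, q2]
    simp only [hf_sub_right, hf_add_right, hf_smul_right, hba, hbb]
    simp only [Complex.add_im, Complex.sub_im, Complex.mul_im, Complex.mul_re, Complex.add_re,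
      Complex.sub_re, Complex.ofReal_re, Complex.ofReal_im, Complex.I_re, Complex.I_im,
      Complex.one_re, Complex.one_im, Complex.neg_re, Complex.neg_im, Complex.zero_re,
      Complex.zero_im]
    ring
  have hCR : ∀ Y ∈ A.CR A.LA, τ Y = 0 := by
    intro Y hY
    unfold AbVar.CR at hY
    induction hY using Submodule.span_induction with
    | mem Y hY =>
      obtain ⟨X, hX, rfl⟩ := hY
      exact hS hX
    | zero => rw [map_zero]
    | add a b _ _ ha hb => rw [map_add, ha, hb, add_zero]
    | smul c a _ ha => rw [map_smul, ha, smul_zero]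
  -- the real subspace
  let W : Submodule ℝ (Fin g → ℂ) :=
    { carrier := {v | (hf (HA A e i0) b ((theta e i0).symm v)).im = 0 ∧
        (hf (HA A e i0) a ((theta e i0).symm v)).re = 0}
      zero_mem' := by
        constructor
        · rw [map_zero, hf_zero_right, Complex.zero_im]
        · rw [map_zero, hf_zero_right, Complex.zero_re]
      add_mem' := by
        rintro v w ⟨h3, h4⟩ ⟨h5, h6⟩
        constructor
        · rw [map_add, hf_add_right, Complex.add_im, h3, h5, add_zero]
        · rw [map_add, hf_add_right, Complex.add_re, h4, h6, add_zero]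
      smul_mem' := by
        rintro c v ⟨h3, h4⟩
        have h7 : c • (theta e i0).symm v = (c : ℂ) • (theta e i0).symm v := by
          funext i
          simp
        constructor
        · rw [map_smul, h7, hf_smul_right, Complex.im_ofReal_mul, h3, mul_zero]
        · rw [map_smul, h7, hf_smul_right, Complex.re_ofReal_mul, h4, mul_zero] }
  have hW : ∀ v, v ∈ W ↔ (hf (HA A e i0) b ((theta e i0).symm v)).im = 0 ∧
        (hf (HA A e i0) a ((theta e i0).symm v)).re = 0 := fun v => Iff.rfl
  have hWst : ∀ Y ∈ A.CR A.LA, ∀ v ∈ W, Y v ∈ W := by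
    intro Y hY v hv
    obtain ⟨X, rfl⟩ := exists_tr h.cx (h.J_comm hY)
    obtain ⟨z, rfl⟩ := (theta e i0).surjective v
    rw [hW, LinearEquiv.symm_apply_apply] at hv
    rw [hW, tr_theta, LinearEquiv.symm_apply_apply]
    obtain ⟨w, hw, hz, horth⟩ := exists_dec h h2 ha hb haa hbb hab z
    have hXw : ∀ u ∈ UU t i0, hf (HA A e i0) u (X.mulVec w) = 0 := by
      intro u hu
      have h3 := hf_skew (hud.skew X hY) u w
      rw [horth _ (hud.st X hY u hu), zero_add] at h3
      exact h3
    obtain ⟨x1, y1, z1, w1, p1, q1, r1⟩ := hco X hY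
    have hy : y1 = 0 := by
      rw [r1, ← hco' X, ← hτ]
      exact hCR _ hY
    rw [hy] at p1 q1
    have h3 : X.mulVec z = hf (HA A e i0) b z • X.mulVec a + hf (HA A e i0) a z • X.mulVec b +
        X.mulVec w := by
      conv_lhs => rw [hz]
      rw [Matrix.mulVec_add, Matrix.mulVec_add, Matrix.mulVec_smul, Matrix.mulVec_smul]
    obtain ⟨h4, h5⟩ := hv
    constructor
    · rw [h3, hf_add_right, hXw b hb, add_zero, p1, q1]
      simp only [hf_add_right, hf_smul_right, hba, hbb]
      simp only [Complex.add_im, Complex.mul_im, Complex.mul_re, Complex.add_re,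
        Complex.ofReal_re, Complex.ofReal_im, Complex.I_re, Complex.I_im,
        Complex.one_re, Complex.one_im, Complex.neg_re, Complex.neg_im, Complex.zero_re,
        Complex.zero_im, h4, h5]
      ring
    · rw [h3, hf_add_right, hXw a ha, add_zero, p1, q1]
      simp only [hf_add_right, hf_smul_right, haa, hab]
      simp only [Complex.add_im, Complex.mul_im, Complex.mul_re, Complex.add_re,
        Complex.ofReal_re, Complex.ofReal_im, Complex.I_re, Complex.I_im,
        Complex.one_re, Complex.one_im, Complex.neg_re, Complex.neg_im, Complex.zero_re,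
        Complex.zero_im, h4, h5]
      ring
  have hMW := stable' h.hEA hWst (Y := M.restrictScalars ℝ) (fun u => by
    rw [ext_eq h.hM, ext_eq h.hM]
    rfl) (theta e i0 a) (by
      rw [hW, LinearEquiv.symm_apply_apply, hba, haa]
      exact ⟨Complex.one_im, Complex.zero_re⟩)
  rw [hW] at hMW
  have h3 : (theta e i0).symm ((M.restrictScalars ℝ) (theta e i0 a)) =
      (t i0 * Complex.I : ℂ) • a := by
    apply (theta e i0).injective
    rw [LinearEquiv.apply_symm_apply]
    change M (theta e i0 a) = _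
    rw [M_theta h.he]
    congr 1
    funext i
    rw [Pi.smul_apply, smul_eq_mul]
    by_cases hi : sc t i0 i = t i0
    · rw [hi]
    · rw [(mem_UU a).1 ha i hi, mul_zero, mul_zero]
  rw [h3, hf_smul_right, hba] at hMW
  have h4 := hMW.1
  simp only [mul_one, Complex.mul_im, Complex.ofReal_re, Complex.I_im, Complex.ofReal_im,
    Complex.I_re, mul_zero, add_zero] at h4
  have h5 := h.hd i0 i0
  rw [sc_same, h4] at h5
  apply h5
  ring

end Pool.Agent.W5h86.LX
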