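import Pool.Agent.H86.CMLib9.W5h86.LX.Br8
import Pool.Agent.H86.CMLib9.W5h86.LY.Fin2

set_option autoImplicit false

/-!
# The main theorem in rank two
-/

open Module Function

noncomputable section

namespace Pool.Agent.W5h86.LX

open Pool.Agent.Y102 Pool.Agent.W516.DR Pool.Agent.W516.KC Pool.Agent.H204R3.SP Pool.Agent.W5h86.LY
open Pool.Agent.H204R3.GP

variable {g : ℕ} {A : AbVar g} {P : Module.End ℚ A.H1} {M : (Fin g → ℂ) →ₗ[ℂ] (Fin g → ℂ)}

theorem final3 {e : Basis (Fin g) ℂ (Fin g → ℂ)} {t : Fin g → ℝ} {i0 : Fin g}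
    (h : Setup2 A P M e t i0) (hsimple : ∀ Q ∈ A.EA, Q ≠ 0 → Function.Injective Q)
    (hP : P ∈ A.EA) (hPs : IsSkew A.om P) (hTR : TR A P) (h2 : finrank ℂ (UU t i0) = 2) {m : ℕ}
    {φ : MultilinearMap ℚ (fun _ : Fin m × Fin 2 => A.H1) ℚ}
    (hφ : IsDeRhamBettiForm QBar A.dR tau m φ) {Z : Module.End ℚ A.H1} (hZ1 : IsSkew A.om Z)
    (hZ2 : Z * P = P * Z) : Kills Z φ := by
  obtain ⟨X0, hX0, hX0E, hX0n⟩ := exists_central h h2
  have hkE : ∀ Q ∈ A.EA, IsSkew A.om Q → Kills Q φ := fun Q hQ hQs =>
    kills_EA A hP hPs h.hEA hTR hX0 hX0E hX0n hQ hQs hφ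
  obtain ⟨-, hρ⟩ := rho_int h
  have hRE : -(P * P) ∈ A.EA := by
    have h3 := A.EA.neg_mem (A.EA_mul hP hP)
    exact h3
  have hRs : ∀ u v, A.om ((-(P * P)) u) v = A.om u ((-(P * P)) v) := by
    intro u v
    have h1 := hPs (P u) v
    have h2 := hPs u (P v)
    simp only [LinearMap.neg_apply, Module.End.mul_apply, map_neg]
    linarith
  have hRP : (-(P * P)) * P = P * (-(P * P)) := by
    refine LinearMap.ext fun x => ?_
    simp only [LinearMap.neg_apply, Module.End.mul_apply, map_neg]
  have hRiE : ∀ i : ℕ, (-(P * P)) ^ i ∈ A.EA := by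
    intro i
    induction i with
    | zero => rw [pow_zero]; exact A.EA_one
    | succ i ih => rw [pow_succ]; exact A.EA_mul ih hRE
  have hRis : ∀ (i : ℕ) u v, A.om (((-(P * P)) ^ i) u) v = A.om u (((-(P * P)) ^ i) v) := by
    intro i
    induction i with
    | zero => intro u v; rfl
    | succ i ih =>
      intro u v
      rw [pow_succ, Module.End.mul_apply, ih, hRs, ← Module.End.mul_apply, ← pow_succ', pow_succ]
  have hRiP : ∀ i : ℕ, (-(P * P)) ^ i * P = P * (-(P * P)) ^ i := fun i =>
    (show Commute (-(P * P)) P from hRP).pow_left i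
  have hYYP : KR (YY A (t i0 ^ 2) (-(P * P)) P) (A.Phi φ) := by
    refine KR_YY A fun i => hkE _ (A.EA_mul (hRiE i) hP) ?_
    intro u v
    rw [Module.End.mul_apply, hRis, hRiP, Module.End.mul_apply]
    exact hPs u _
  obtain ⟨p1, p2, p3, p4⟩ := YY_props h hsimple hPs hZ1 hZ2
  exact kills_of_KR A hρ (killsU h h2 (fun Y hY => KR_of_kills A
    (fun X hX => A.kills_of_mem hφ hX) hY) hsimple hPs hYYP p1 p2 p3 p4)

/-- **The main theorem.** -/
theorem main3 (A : AbVar g) {P : Module.End ℚ A.H1} (hP : P ∈ A.EA) (hPs : IsSkew A.om P)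
    (hEA : ∀ Q ∈ A.EA, Q ∈ Algebra.adjoin ℚ {P})
    (hsimple : ∀ Q ∈ A.EA, Q ≠ 0 → Function.Injective Q) (hTR : TR A P)
    {M : (Fin g → ℂ) →ₗ[ℂ] (Fin g → ℂ)} (hM : ∀ w, M (A.per w) = A.per (P w)) {s : ℂ}
    (hs : s ≠ 0)
    (h1 : finrank ℂ (LinearMap.ker (M - s • LinearMap.id)) = 1)
    (h2 : finrank ℂ (LinearMap.ker (M + s • LinearMap.id)) = 1)
    (hd : ∀ s' : ℂ, s' ≠ s → s' ≠ -s → LinearMap.ker (M - s' • LinearMap.id) = ⊥ ∨
      LinearMap.ker (M + s' • LinearMap.id) = ⊥) {m : ℕ}
    {φ : MultilinearMap ℚ (fun _ : Fin m × Fin 2 => A.H1) ℚ}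
    (hφ : IsDeRhamBettiForm QBar A.dR tau m φ) {Z : Module.End ℚ A.H1} (hZ1 : IsSkew A.om Z)
    (hZ2 : Z * P = P * Z) : Kills Z φ := by
  obtain ⟨e, t, het⟩ := exists_basis_M (skew_M hM hPs)
  have hfr : ∀ s : ℂ, finrank ℂ (LinearMap.ker (M - s • LinearMap.id)) =
      Fintype.card {i // (t i * Complex.I : ℂ) = s} := fun s =>
    finrank_eig e M (fun i => (t i * Complex.I : ℂ)) het s
  have hadd : ∀ s : ℂ, LinearMap.ker (M + s • LinearMap.id) =
      LinearMap.ker (M - (-s) • LinearMap.id) := fun s => by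
    congr 1
    refine LinearMap.ext fun v => ?_
    simp
  have hfr' : ∀ s : ℂ, finrank ℂ (LinearMap.ker (M + s • LinearMap.id)) =
      Fintype.card {i // (t i * Complex.I : ℂ) = -s} := fun s => by
    rw [hadd, hfr]
  have hinj : ∀ x y : ℝ, ((x : ℂ) * Complex.I = y * Complex.I) ↔ x = y := by
    intro x y
    constructor
    · intro h
      exact_mod_cast mul_right_cancel₀ Complex.I_ne_zero h
    · intro h
      rw [h]
  rw [hfr] at h1
  obtain ⟨⟨i0, hi0⟩, huniq⟩ := Fintype.card_eq_one_iff.1 h1
  have h0 : ∀ i, i ≠ i0 → t i ≠ t i0 := by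
    intro i hi hti
    apply hi
    have h3 := huniq ⟨i, by rw [hti, hi0]⟩
    exact congrArg Subtype.val h3
  rw [hfr'] at h2
  have hneg : ∀ i, ((t i : ℂ) * Complex.I = -s) ↔ t i = -t i0 := by
    intro i
    rw [← hi0, ← neg_mul, ← Complex.ofReal_neg, hinj]
  have ht0 : t i0 ≠ 0 := by
    intro h
    apply hs
    rw [← hi0, h, Complex.ofReal_zero, zero_mul]
  have hker : ∀ (i : Fin g) (s' : ℂ), (t i * Complex.I : ℂ) = s' →
      LinearMap.ker (M - s' • LinearMap.id) ≠ ⊥ := by
    intro i s' hi hbot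
    have h3 : e i ∈ LinearMap.ker (M - s' • LinearMap.id) := by
      rw [LinearMap.mem_ker, LinearMap.sub_apply, LinearMap.smul_apply, LinearMap.id_apply, het,
        hi, sub_self]
    rw [hbot, Submodule.mem_bot] at h3
    exact e.ne_zero i h3
  have hset : Setup2 A P M e t i0 := by
    refine ⟨hM, het, h0, fun i j => ?_, skew_M hM hPs, hP, hEA⟩
    by_cases hi : i = i0
    · subst hi
      rw [sc_same]
      by_cases hj : j = i
      · subst hj
        rw [sc_same]
        intro h
        apply ht0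
        linarith
      · rw [sc_ne hj]
        intro h
        apply h0 j hj
        linarith
    · rw [sc_ne hi]
      by_cases hj : j = i0
      · subst hj
        rw [sc_same]
        intro h
        apply h0 i hi
        linarith
      · rw [sc_ne hj]
        intro h
        have hji : t j = -t i := by linarith
        have hs1 : (t i * Complex.I : ℂ) ≠ s := by
          rw [← hi0]
          intro h3
          exact h0 i hi ((hinj _ _).1 h3)
        have hs2 : (t i * Complex.I : ℂ) ≠ -s := by
          intro h3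
          have h4 := (hneg i).1 h3
          apply h0 j hj
          rw [hji, h4, neg_neg]
        rcases hd _ hs1 hs2 with h3 | h3
        · exact hker i _ rfl h3
        · rw [hadd] at h3
          refine hker j _ ?_ h3
          rw [hji]
          push_cast
          ring
  have hcard : finrank ℂ (UU t i0) = 1 + Fintype.card {i // (t i * Complex.I : ℂ) = -s} := by
    rw [finrank_UU]
    have h3 : Fintype.card {i // sc t i0 i = t i0} =
        Fintype.card (Option {i // (t i * Complex.I : ℂ) = -s}) := by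
      refine Fintype.card_congr
        { toFun := fun x => if hx : x.1 = i0 then none else some ⟨x.1, by
            rw [hneg]
            have h4 := x.2
            rw [sc_ne hx] at h4
            linarith⟩
          invFun := fun y => match y with
            | none => ⟨i0, sc_same⟩
            | some z => ⟨z.1, by
                have h4 := (hneg z.1).1 z.2
                have h5 : z.1 ≠ i0 := by
                  intro h6
                  rw [h6] at h4
                  apply ht0
                  linarith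
                rw [sc_ne h5, h4, neg_neg]⟩
          left_inv := ?_
          right_inv := ?_ }
      · rintro ⟨x, hx⟩
        by_cases hx0 : x = i0
        · subst hx0
          simp
        · simp [hx0]
      · rintro (_ | ⟨z, hz⟩)
        · simp
        · have h4 := (hneg z).1 hz
          have h5 : z ≠ i0 := by
            intro h6
            rw [h6] at h4
            apply ht0
            linarith
          simp [h5]
    rw [h3, Fintype.card_option, add_comm]
  exact final3 hset hsimple hP hPs hTR (by omega) hφ hZ1 hZ2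

/-- the classes are Hodge classes -/
theorem hodge3 (A : AbVar g) {P : Module.End ℚ A.H1} (hP : P ∈ A.EA) {m : ℕ}
    {φ : MultilinearMap ℚ (fun _ : Fin m × Fin 2 => A.H1) ℚ}
    (h : ∀ Z : Module.End ℚ A.H1, IsSkew A.om Z → Z * P = P * Z → Kills Z φ) :
    IsHodgeTensor (A.per : A.H1 →+ (Fin g → ℂ)) φ :=
  hodge_of_kills _ A.isRationalStructure _ fun Z hZ =>
    h Z (A.MA_skew hZ) (A.MA_comm hZ (A.hodge_end (A.mem_EA.1 hP)))

end Pool.Agent.W5h86.LX
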