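import Pool.Agent.H86.CMLib9.W5h86.LX.Inv

set_option autoImplicit false

/-!
# The invariants of the commutant of a skew-symmetric endomorphism are generated in degree two
-/

open Module Function Polynomial TensorProduct

noncomputable section

namespace Pool.Agent.W5h86.LX

open Pool.Agent.H204R3.SP Pool.Agent.H204R3.GP Pool.Agent.W516.DR Pool.Agent.W516.KC

section Cx

variable {V : Type} [AddCommGroup V] [Module ℂ V] {R : Type} (e : Basis R ℂ V) {inv : R → R} {jj : R → ℂ} {c : R → ℂ}
  (ω : V →ₗ[ℂ] V →ₗ[ℂ] ℂ) (T : Module.End ℂ V)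

lemma aeval_ev {x : R} (hT : T (e x) = c x • e x) (p : ℂ[X]) :
    aeval T p (e x) = (p.eval (c x)) • e x :=
  Module.End.aeval_apply_of_hasEigenvector
    ⟨Module.End.mem_eigenspace_iff.2 hT, e.ne_zero x⟩

variable [Fintype R] [DecidableEq R]

/-- **The first fundamental theorem** for the commutant of `T`. -/
theorem fft_T (hinv : ∀ x, inv (inv x) = x) (hjj : ∀ x, jj (inv x) = -jj x) (hj0 : ∀ x, jj x ≠ 0)
    (hω : ∀ x y, ω (e x) (e y) = JJ inv jj x y) (hT : ∀ x, T (e x) = c x • e x)
    (hc : ∀ x, c (inv x) = -c x) (hanti : ∀ u v, ω u v = -ω v u)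
    (hTs : ∀ u v, ω (T u) v + ω u (T v) = 0) {m : ℕ}
    (Φ : MultilinearMap ℂ (fun _ : Fin m × Fin 2 => V) ℂ)
    (hΦ : ∀ Y : Module.End ℂ V, (∀ u v, ω (Y u) v + ω u (Y v) = 0) → Y * T = T * Y → Kills Y Φ) :
    Φ ∈ Submodule.span ℂ {ψ : MultilinearMap ℂ (fun _ : Fin m × Fin 2 => V) ℂ |
      ∃ (σ : Equiv.Perm (Fin m × Fin 2)) (q : Fin m → ℂ[X]), ψ = mmG σ fun l =>
        ω.comp (aeval T (q l))} := by
  classical
  let S : Finset ℂ := Finset.univ.image c
  have hS : ∀ x, c x ∈ S := fun x => Finset.mem_image_of_mem c (Finset.mem_univ x)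
  let cls : R → S := fun x => ⟨c x, hS x⟩
  have hcls' : ∀ x y, cls x = cls y ↔ c x = c y := fun x y => Subtype.ext_iff
  have hcls : ∀ x y, cls x = cls y → cls (inv x) = cls (inv y) := by
    intro x y h
    rw [hcls'] at h ⊢
    rw [hc, hc, h]
  let q : S → ℂ[X] := fun z => Lagrange.basis S id z.1
  have hq : ∀ z x, (q z).eval (c x) = if cls x = z then 1 else 0 := by
    intro z x
    by_cases h : cls x = z
    · subst h
      rw [if_pos rfl]
      exact Lagrange.eval_basis_self (Function.injective_id.injOn) (hS x)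
    · rw [if_neg h]
      exact Lagrange.eval_basis_of_ne (v := id) (fun h' => h (Subtype.ext h'.symm)) (hS x)
  let BC : S → (V →ₗ[ℂ] V →ₗ[ℂ] ℂ) := fun z => ω.comp (aeval T (q z))
  have hBC : ∀ z x y, BC z (e x) (e y) = if cls x = z then JJ inv jj x y else 0 := by
    intro z x y
    change ω (aeval T (q z) (e x)) (e y) = _
    rw [aeval_ev e T (hT x), hq, map_smul, LinearMap.smul_apply, hω, smul_eq_mul]
    split_ifs
    · rw [one_mul]
    · rw [zero_mul]
  -- coefficients
  let coef : MultilinearMap ℂ (fun _ : Fin m × Fin 2 => V) ℂ →ₗ[ℂ] ((Fin m × Fin 2 → R) → ℂ) :=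
    { toFun := fun φ I => φ (fun k => e (I k))
      map_add' := fun _ _ => rfl
      map_smul' := fun _ _ => rfl }
  have hinj : Function.Injective coef := fun φ φ' h =>
    Basis.ext_multilinear (fun _ => e) fun I => congrFun h I
  have hrel : ∀ b b', cls (inv b) = cls b' → ∀ I : Fin m × Fin 2 → R,
      ∑ k, (JJ inv jj b (I k) * coef Φ (Function.update I k b') +
        JJ inv jj b' (I k) * coef Φ (Function.update I k b)) = 0 := by
    intro b b' hbc I
    rw [hcls', hc] at hbc
    have h2 : Kills (SS ω (e b) (e b')) Φ := by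
      refine hΦ _ (fun u v => ?_) (LinearMap.ext fun v => ?_)
      · rw [SS_apply, SS_apply]
        simp only [map_add, map_smul, LinearMap.add_apply, LinearMap.smul_apply, smul_eq_mul]
        rw [hanti u (e b'), hanti u (e b)]
        ring
      · rw [Module.End.mul_apply, Module.End.mul_apply, SS_apply, SS_apply, map_add, map_smul,
          map_smul, hT, hT]
        have h3 := hTs (e b) v
        have h4 := hTs (e b') v
        rw [hT, map_smul, LinearMap.smul_apply, smul_eq_mul] at h3 h4
        have h5 : ω (e b) (T v) = c b' * ω (e b) v := by linear_combination h3 + ω (e b) v * hbc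
        have h6 : ω (e b') (T v) = c b * ω (e b') v := by
          linear_combination h4 + ω (e b') v * hbc
        rw [h5, h6, smul_smul, smul_smul, mul_comm (c b'), mul_comm (c b)]
    have h3 := h2 (fun k => e (I k))
    rw [← h3]
    refine Finset.sum_congr rfl fun k _ => ?_
    rw [SS_apply, hω, hω, MultilinearMap.map_update_add, MultilinearMap.map_update_smul,
      MultilinearMap.map_update_smul, smul_eq_mul, smul_eq_mul]
    have h4 : ∀ z : R, coef Φ (Function.update I k z) =
        Φ (Function.update (fun k => e (I k)) k (e z)) := by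
      intro z
      change Φ (fun l => e (Function.update I k z l)) = _
      congr 1
      funext l
      by_cases hl : l = k
      · subst hl
        rw [Function.update_self, Function.update_self]
      · rw [Function.update_of_ne hl, Function.update_of_ne hl]
    rw [h4, h4]
  let F : (Fin m × Fin 2 → S) → ((Fin m × Fin 2 → R) → ℂ) := fun t I =>
    if (fun k => cls (I k)) = t then coef Φ I else 0
  have hF : coef Φ = ∑ t, F t := by
    funext I
    rw [Finset.sum_apply]
    simp only [F]
    rw [Finset.sum_ite_eq, if_pos (Finset.mem_univ _)]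
  have hFt : ∀ t, F t ∈ InvG cls inv jj (Fin m × Fin 2) t := by
    intro t
    refine ⟨fun b c hbc I => ?_, fun I hI k => ?_⟩
    · have htype : ∀ (k : Fin m × Fin 2) (z : R), cls (I k) = cls z →
          (fun l => cls (Function.update I k z l)) = fun l => cls (I l) := by
        intro k z hz
        funext l
        by_cases hl : l = k
        · subst hl
          rw [Function.update_self, hz]
        · rw [Function.update_of_ne hl]
      have h1 : ∀ k, JJ inv jj b (I k) * F t (Function.update I k c) +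
          JJ inv jj c (I k) * F t (Function.update I k b) =
          if (fun k => cls (I k)) = t then JJ inv jj b (I k) * coef Φ (Function.update I k c) +
            JJ inv jj c (I k) * coef Φ (Function.update I k b) else 0 := by
        intro k
        have e1 : JJ inv jj b (I k) * F t (Function.update I k c) =
            if (fun k => cls (I k)) = t then JJ inv jj b (I k) *
              coef Φ (Function.update I k c) else 0 := by
          by_cases h : I k = inv b
          · have h2 := htype k c (by rw [h, hbc])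
            simp only [F]
            rw [h2]
            split_ifs
            · rfl
            · rw [mul_zero]
          · have h2 : JJ inv jj b (I k) = 0 := by
              unfold JJ
              rw [if_neg h]
            rw [h2, zero_mul, zero_mul]
            split_ifs <;> rfl
        have e2 : JJ inv jj c (I k) * F t (Function.update I k b) =
            if (fun k => cls (I k)) = t then JJ inv jj c (I k) *
              coef Φ (Function.update I k b) else 0 := by
          by_cases h : I k = inv c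
          · have h2 := htype k b (by rw [h, ← hcls _ _ hbc, hinv])
            simp only [F]
            rw [h2]
            split_ifs
            · rfl
            · rw [mul_zero]
          · have h2 : JJ inv jj c (I k) = 0 := by
              unfold JJ
              rw [if_neg h]
            rw [h2, zero_mul, zero_mul]
            split_ifs <;> rfl
        rw [e1, e2]
        split_ifs
        · rfl
        · rw [add_zero]
      rw [Finset.sum_congr rfl (fun k _ => h1 k)]
      by_cases hI : (fun k => cls (I k)) = t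
      · simp only [if_pos hI]
        exact hrel b c hbc I
      · simp only [if_neg hI]
        exact Finset.sum_const_zero
    · by_contra h
      apply hI
      simp only [F]
      rw [if_neg]
      rintro rfl
      exact h rfl
  have h1 : coef Φ ∈ MatG cls inv jj (Fin m × Fin 2) m := by
    rw [hF]
    exact Submodule.sum_mem _ fun t _ => fftG hinv hjj hj0 hcls m (Fin m × Fin 2)
      (by simp [mul_comm]) t (hFt t)
  have h3 : MatG cls inv jj (Fin m × Fin 2) m ≤ (Submodule.span ℂ
      {ψ : MultilinearMap ℂ (fun _ : Fin m × Fin 2 => V) ℂ |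
      ∃ (σ : Equiv.Perm (Fin m × Fin 2)) (q : Fin m → ℂ[X]), ψ = mmG σ fun l =>
        ω.comp (aeval T (q l))}).map coef := by
    unfold MatG
    rw [Submodule.span_le]
    rintro _ ⟨σ, z, rfl⟩
    refine ⟨mmG σ (fun l => BC (z l)), Submodule.subset_span ⟨σ, fun l => q (z l), rfl⟩, ?_⟩
    funext I
    change mmG σ (fun l => BC (z l)) (fun k => e (I k)) = _
    rw [mmG_apply]
    exact Finset.prod_congr rfl fun s _ => hBC _ _ _
  obtain ⟨φ', hφ', hφφ⟩ := h3 h1
  rw [← hinj hφφ]
  exact hφ'

end Cx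

/-- the products of the forms given by the powers of an endomorphism -/
def ProdP {W : Type} [AddCommGroup W] [Module ℚ W] (om : W →ₗ[ℚ] W →ₗ[ℚ] ℚ) (P : Module.End ℚ W)
    (m : ℕ) : Set (MultilinearMap ℚ (fun _ : Fin m × Fin 2 => W) ℚ) :=
  {ψ | ∃ (σ : Equiv.Perm (Fin m × Fin 2)) (i : Fin m → ℕ),
    ∀ v, ψ v = ∏ l, om ((P ^ i l) (v (σ (l, 0)))) (v (σ (l, 1)))}

/-- **The invariants of the skew-symmetric commutant of `P` are generated in degree two.** -/
theorem prod_of_kills {W : Type} [AddCommGroup W] [Module ℚ W] [FiniteDimensional ℚ W]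
    (om : W →ₗ[ℚ] W →ₗ[ℚ] ℚ) (hanti : ∀ u v, om u v = -om v u)
    (hnd : ∀ u, (∀ v, om u v = 0) → u = 0) (P : Module.End ℚ W) (hPs : IsSkew om P)
    (hPi : Function.Injective P)
    (hred : ∀ p : ℚ[X], aeval P p * aeval P p = 0 → aeval P p = 0) {m : ℕ}
    (φ : MultilinearMap ℚ (fun _ : Fin m × Fin 2 => W) ℚ)
    (hφ : ∀ Z : Module.End ℚ W, IsSkew om Z → Z * P = P * Z → Kills Z φ) :
    φ ∈ Submodule.span ℚ (ProdP om P m) := by
  classical
  let ω : ℂ ⊗[ℚ] W →ₗ[ℂ] ℂ ⊗[ℚ] W →ₗ[ℂ] ℂ := LinearMap.BilinForm.baseChange ℂ om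
  have hωω : ∀ u v : W, ω ((1 : ℂ) ⊗ₜ[ℚ] u) ((1 : ℂ) ⊗ₜ[ℚ] v) = algebraMap ℚ ℂ (om u v) := by
    intro u v
    change LinearMap.BilinForm.baseChange ℂ om _ _ = _
    rw [LinearMap.BilinForm.baseChange_tmul]
    simp
  have hanti' : ∀ u v, ω u v = -ω v u := by
    have h1 : ω = -ω.flip := by
      apply bilin_ext
      intro u v
      rw [LinearMap.neg_apply, LinearMap.neg_apply, LinearMap.flip_apply, hωω, hωω, hanti, map_neg]
    intro u v
    exact congrArg (fun F : ℂ ⊗[ℚ] W →ₗ[ℂ] ℂ ⊗[ℚ] W →ₗ[ℂ] ℂ => F u v) h1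
  have hnd' : ∀ u, (∀ v, ω u v = 0) → u = 0 := fun u hu => nondeg_ext om ω hωω hnd u hu
  have hTs := skew_ext om ω hωω hPs
  -- the eigenbasis
  obtain ⟨n, b, hb⟩ := Y102.exists_joint_basis (fun _ : Unit => P.baseChange ℂ)
    (fun _ _ => Commute.refl _) (fun _ => Y102.semisimple_of_reduced P hred)
  choose χ hχ using fun k => hb k ()
  have hχ0 : ∀ k, χ k ≠ 0 := by
    intro k h0
    obtain ⟨G, hG⟩ := P.exists_leftInverse_of_injective (LinearMap.ker_eq_bot.2 hPi)
    have h1 : G.baseChange ℂ (P.baseChange ℂ (b k)) = b k := by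
      rw [← LinearMap.comp_apply, ← LinearMap.baseChange_comp, hG, LinearMap.baseChange_id]
      rfl
    rw [hχ, h0, zero_smul, map_zero] at h1
    exact b.ne_zero k h1.symm
  obtain ⟨R, _, _, e, inv, jj, c, hinv, hjj, hj0, hω, hT, hc⟩ :=
    exists_symp ω hanti' hnd' (P.baseChange ℂ) hTs b hχ hχ0
  let β := Module.finBasis ℚ W
  have h1 := fft_T e ω (P.baseChange ℂ) hinv hjj hj0 hω hT hc hanti' hTs (bcm (Ω := ℂ) β φ)
    (fun Y hY1 hY2 => (kills_bcm_iff β φ Y).2 fun lam => hφ _ (fun u v => by
      have h2 := congrArg lam (hY1 ((1 : ℂ) ⊗ₜ[ℚ] u) ((1 : ℂ) ⊗ₜ[ℚ] v))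
      rw [map_add, map_zero, lam_omega om ω hωω, lam_omega' om ω hωω] at h2
      exact h2) ((comm_iff P Y).2 hY2 lam))
  -- the restriction to the rational vectors
  let res : MultilinearMap ℂ (fun _ : Fin m × Fin 2 => ℂ ⊗[ℚ] W) ℂ →ₗ[ℂ]
      ((Fin m × Fin 2 → W) → ℂ) :=
    { toFun := fun F v => F (fun l => (1 : ℂ) ⊗ₜ[ℚ] v l)
      map_add' := fun _ _ => rfl
      map_smul' := fun _ _ => rfl }
  have h2 : res (bcm (Ω := ℂ) β φ) = fun v => algebraMap ℚ ℂ (φ v) := by
    funext v
    exact bcm_one β φ v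
  let emb : MultilinearMap ℚ (fun _ : Fin m × Fin 2 => W) ℚ →ₗ[ℚ]
      ((Fin m × Fin 2 → W) → ℚ) :=
    { toFun := fun F v => F v
      map_add' := fun _ _ => rfl
      map_smul' := fun _ _ => rfl }
  have h3 : (fun v => algebraMap ℚ ℂ (φ v)) ∈ Submodule.span ℂ
      {g : (Fin m × Fin 2 → W) → ℂ | ∃ s ∈ emb '' ProdP om P m,
        g = fun x => algebraMap ℚ ℂ (s x)} := by
    rw [← h2]
    have h4 : (Submodule.span ℂ {ψ : MultilinearMap ℂ (fun _ : Fin m × Fin 2 => ℂ ⊗[ℚ] W) ℂ |
        ∃ (σ : Equiv.Perm (Fin m × Fin 2)) (q : Fin m → ℂ[X]), ψ = mmG σ fun l =>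
          ω.comp (aeval (P.baseChange ℂ) (q l))}).map res ≤ Submodule.span ℂ
        {g : (Fin m × Fin 2 → W) → ℂ | ∃ s ∈ emb '' ProdP om P m,
          g = fun x => algebraMap ℚ ℂ (s x)} := by
      rw [Submodule.map_span, Submodule.span_le]
      rintro _ ⟨_, ⟨σ, q, rfl⟩, rfl⟩
      obtain ⟨N, hN⟩ : ∃ N, ∀ l, (q l).natDegree < N :=
        ⟨(∑ l, (q l).natDegree) + 1, fun l => Nat.lt_succ_of_le
          (Finset.single_le_sum (f := fun l => (q l).natDegree) (fun _ _ => Nat.zero_le _)
            (Finset.mem_univ l))⟩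
      have hpow : ∀ (i : ℕ) (u : W), ((P.baseChange ℂ) ^ i) ((1 : ℂ) ⊗ₜ[ℚ] u) =
          (1 : ℂ) ⊗ₜ[ℚ] (P ^ i) u := by
        intro i
        induction i with
        | zero => intro u; rfl
        | succ i ih =>
          intro u
          rw [pow_succ, pow_succ, Module.End.mul_apply, Module.End.mul_apply,
            LinearMap.baseChange_tmul, ih]
      have h5 : ∀ (l : Fin m) (u v : W), ω (aeval (P.baseChange ℂ) (q l) ((1 : ℂ) ⊗ₜ[ℚ] u))
          ((1 : ℂ) ⊗ₜ[ℚ] v) = ∑ i ∈ Finset.range N, (q l).coeff i *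
            algebraMap ℚ ℂ (om ((P ^ i) u) v) := by
        intro l u v
        rw [aeval_eq_sum_range' (hN l), LinearMap.sum_apply, map_sum, LinearMap.sum_apply]
        refine Finset.sum_congr rfl fun i _ => ?_
        rw [LinearMap.smul_apply, map_smul, LinearMap.smul_apply, smul_eq_mul, hpow, hωω]
      have h6 : res (mmG σ fun l => ω.comp (aeval (P.baseChange ℂ) (q l))) =
          ∑ I ∈ Fintype.piFinset (fun _ : Fin m => Finset.range N),
            (∏ l, (q l).coeff (I l)) • fun v : Fin m × Fin 2 → W => algebraMap ℚ ℂ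
              (∏ l, om ((P ^ I l) (v (σ (l, 0)))) (v (σ (l, 1)))) := by
        funext v
        rw [Finset.sum_apply]
        change (mmG σ fun l => ω.comp (aeval (P.baseChange ℂ) (q l)))
          (fun l => (1 : ℂ) ⊗ₜ[ℚ] v l) = _
        rw [mmG_apply]
        have h7 : ∀ l : Fin m, (ω.comp (aeval (P.baseChange ℂ) (q l)))
            ((1 : ℂ) ⊗ₜ[ℚ] v (σ (l, 0))) ((1 : ℂ) ⊗ₜ[ℚ] v (σ (l, 1))) =
            ∑ i ∈ Finset.range N, (q l).coeff i *
              algebraMap ℚ ℂ (om ((P ^ i) (v (σ (l, 0)))) (v (σ (l, 1)))) := fun l => h5 l _ _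
        rw [Finset.prod_congr rfl fun l _ => h7 l, Finset.prod_univ_sum]
        refine Finset.sum_congr rfl fun I _ => ?_
        rw [Finset.prod_mul_distrib, Pi.smul_apply, smul_eq_mul, map_prod]
      rw [h6]
      refine Submodule.sum_mem _ fun I _ => Submodule.smul_mem _ _ (Submodule.subset_span ?_)
      exact ⟨_, ⟨mmG σ (fun l => om.comp (P ^ I l)), ⟨σ, I, fun v => by
        rw [mmG_apply]
        rfl⟩, rfl⟩, by
        funext v
        change _ = algebraMap ℚ ℂ (mmG σ (fun l => om.comp (P ^ I l)) v)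
        rw [mmG_apply]
        rfl⟩
    exact h4 (Submodule.mem_map_of_mem h1)
  have h4 := span_descent_k _ _ h3
  rw [← Submodule.map_span] at h4
  obtain ⟨φ', hφ', hφφ⟩ := h4
  have h6 : φ' = φ := MultilinearMap.ext fun v => congrFun hφφ v
  rwa [← h6]

end Pool.Agent.W5h86.LX
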