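import Pool.Agent.H86.CMLib.W516.DRCoef
import Pool.Agent.H86.CMLib.H204R3.GP.TateG
import Pool.Agent.H86.CMLib.Y102.AV9

set_option autoImplicit false

/-!
# The invariants of the commutant of a skew-symmetric endomorphism
-/

open Module Function Polynomial TensorProduct

noncomputable section

namespace Pool.Agent.W5h86.LX

open Pool.Agent.H204R3.SP Pool.Agent.H204R3.GP Pool.Agent.W516.DR

/-- half of the nonzero complex numbers -/
def Pos (z : ℂ) : Prop := 0 < z.im ∨ (z.im = 0 ∧ 0 < z.re)

lemma Pos.add {z w : ℂ} (hz : Pos z) (hw : Pos w) : z + w ≠ 0 := by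
  intro h
  have h1 := congrArg Complex.re h
  have h2 := congrArg Complex.im h
  simp only [Complex.add_re, Complex.add_im, Complex.zero_re, Complex.zero_im] at h1 h2
  rcases hz with hz | ⟨hz, hz'⟩ <;> rcases hw with hw | ⟨hw, hw'⟩ <;> linarith

lemma pos_or {z : ℂ} (hz : z ≠ 0) : Pos z ∨ Pos (-z) := by
  unfold Pos
  rcases lt_trichotomy z.im 0 with h | h | h
  · right
    left
    simpa using h
  · rcases lt_trichotomy z.re 0 with h' | h' | h'
    · right
      right
      rw [Complex.neg_im, Complex.neg_re, h, neg_zero]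
      exact ⟨rfl, by linarith⟩
    · exact absurd (Complex.ext h' h) hz
    · exact Or.inl (Or.inr ⟨h, h'⟩)
  · exact Or.inl (Or.inl h)

section Eig

variable {V : Type} [AddCommGroup V] [Module ℂ V] [FiniteDimensional ℂ V]

/-- **A symplectic basis of eigenvectors.** -/
theorem exists_symp (ω : V →ₗ[ℂ] V →ₗ[ℂ] ℂ) (hanti : ∀ u v, ω u v = -ω v u)
    (hnd : ∀ u, (∀ v, ω u v = 0) → u = 0) (T : Module.End ℂ V)
    (hT : ∀ u v, ω (T u) v + ω u (T v) = 0) {n : ℕ} (b : Basis (Fin n) ℂ V) {χ : Fin n → ℂ}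
    (hb : ∀ k, T (b k) = χ k • b k) (hχ : ∀ k, χ k ≠ 0) :
    ∃ (R : Type) (_ : Fintype R) (_ : DecidableEq R) (e : Basis R ℂ V) (inv : R → R) (jj : R → ℂ)
      (c : R → ℂ), (∀ x, inv (inv x) = x) ∧ (∀ x, jj (inv x) = -jj x) ∧ (∀ x, jj x ≠ 0) ∧
      (∀ x y, ω (e x) (e y) = JJ inv jj x y) ∧ (∀ x, T (e x) = c x • e x) ∧
      (∀ x, c (inv x) = -c x) := by
  classical
  have hN : LinearMap.BilinForm.Nondegenerate (ω : LinearMap.BilinForm ℂ V) :=
    ⟨fun u hu => hnd u hu, fun u hu => hnd u fun v => by rw [hanti, hu, neg_zero]⟩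
  obtain ⟨d, hdb⟩ : ∃ d : Basis (Fin n) ℂ V, ∀ i j, ω (d i) (b j) = if j = i then 1 else 0 :=
    ⟨LinearMap.BilinForm.dualBasis ω hN b, fun i j =>
      LinearMap.BilinForm.apply_dualBasis_left hN b i j⟩
  have hTd : ∀ k, T (d k) = (-χ k) • d k := by
    intro k
    rw [← sub_eq_zero]
    apply hnd
    intro v
    have h1 : ω (T (d k) - (-χ k) • d k) = 0 := by
      refine b.ext fun l => ?_
      rw [map_sub, map_smul, LinearMap.sub_apply, LinearMap.smul_apply, hdb, LinearMap.zero_apply,
        smul_eq_mul]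
      have h2 := hT (d k) (b l)
      rw [hb, map_smul, hdb, smul_eq_mul] at h2
      by_cases h : l = k
      · subst h
        rw [if_pos rfl] at h2 ⊢
        linear_combination h2
      · rw [if_neg h] at h2 ⊢
        linear_combination h2
    rw [h1, LinearMap.zero_apply]
  have hbb : ∀ k l, χ k + χ l ≠ 0 → ω (b k) (b l) = 0 := by
    intro k l hkl
    have h1 := hT (b k) (b l)
    rw [hb, hb, map_smul, map_smul, LinearMap.smul_apply, smul_eq_mul, smul_eq_mul,
      ← add_mul] at h1
    exact (mul_eq_zero.1 h1).resolve_left hkl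
  have hdd : ∀ k l, χ k + χ l ≠ 0 → ω (d k) (d l) = 0 := by
    intro k l hkl
    have h1 := hT (d k) (d l)
    rw [hTd, hTd, map_smul, map_smul, LinearMap.smul_apply, smul_eq_mul, smul_eq_mul,
      ← add_mul, ← neg_add] at h1
    exact (mul_eq_zero.1 h1).resolve_left (neg_ne_zero.2 hkl)
  let S : Type := {k : Fin n // Pos (χ k)}
  let ef : S ⊕ S → V := Sum.elim (fun k => b k.1) (fun k => d k.1)
  let inv : S ⊕ S → S ⊕ S := Sum.swap
  let jj : S ⊕ S → ℂ := Sum.elim (fun _ => -1) (fun _ => 1)
  have hinv : ∀ x, inv (inv x) = x := Sum.swap_swap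
  have hjj : ∀ x, jj (inv x) = -jj x := by
    rintro (x | x)
    · exact (neg_neg (1 : ℂ)).symm
    · rfl
  have hj0 : ∀ x, jj x ≠ 0 := by
    rintro (x | x)
    · exact neg_ne_zero.2 one_ne_zero
    · exact one_ne_zero
  have hω : ∀ x y, ω (ef x) (ef y) = JJ inv jj x y := by
    rintro (x | x) (y | y)
    · have h1 : ω (b x.1) (b y.1) = 0 := hbb _ _ (Pos.add x.2 y.2)
      change ω (b x.1) (b y.1) = if (Sum.inl y : S ⊕ S) = Sum.inr x then -1 else 0
      rw [if_neg Sum.inl_ne_inr, h1]
    · have h1 : ω (b x.1) (d y.1) = -(if x.1 = y.1 then 1 else 0) := by rw [hanti, hdb]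
      change ω (b x.1) (d y.1) = if (Sum.inr y : S ⊕ S) = Sum.inr x then -1 else 0
      rw [h1]
      by_cases h : x = y
      · subst h
        rw [if_pos rfl, if_pos rfl]
      · rw [if_neg (fun h' => h (Subtype.ext h')), if_neg (fun h' => h (Sum.inr.inj h').symm),
          neg_zero]
    · have h1 : ω (d x.1) (b y.1) = (if y.1 = x.1 then 1 else 0) := hdb _ _
      change ω (d x.1) (b y.1) = if (Sum.inl y : S ⊕ S) = Sum.inl x then 1 else 0
      rw [h1]
      by_cases h : y = x
      · subst h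
        rw [if_pos rfl, if_pos rfl]
      · rw [if_neg (fun h' => h (Subtype.ext h')), if_neg (fun h' => h (Sum.inl.inj h'))]
    · have h1 : ω (d x.1) (d y.1) = 0 := hdd _ _ (Pos.add x.2 y.2)
      change ω (d x.1) (d y.1) = if (Sum.inr y : S ⊕ S) = Sum.inl x then 1 else 0
      rw [if_neg Sum.inr_ne_inl, h1]
  have hli : LinearIndependent ℂ ef := by
    rw [Fintype.linearIndependent_iff]
    intro g hg x
    have h1 : ω (∑ y, g y • ef y) (ef (inv x)) = g x * jj x := by
      rw [map_sum, LinearMap.sum_apply, Finset.sum_eq_single x]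
      · rw [map_smul, LinearMap.smul_apply, hω, smul_eq_mul]
        unfold JJ
        rw [if_pos rfl]
      · intro y _ hy
        rw [map_smul, LinearMap.smul_apply, hω]
        unfold JJ
        rw [if_neg, smul_zero]
        intro h
        apply hy
        rw [← hinv y, ← h, hinv]
      · intro h
        exact absurd (Finset.mem_univ _) h
    rw [hg, map_zero, LinearMap.zero_apply] at h1
    exact (mul_eq_zero.1 h1.symm).resolve_right (hj0 x)
  have hsp : Submodule.span ℂ (Set.range ef) = ⊤ := by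
    by_contra hne
    obtain ⟨f, hf0, hf⟩ := Submodule.exists_le_ker_of_lt_top _ (lt_top_iff_ne_top.2 hne)
    obtain ⟨v, hv⟩ : ∃ v, ω v = f :=
      ⟨(LinearMap.BilinForm.toDual ω hN).symm f, LinearMap.ext fun w =>
        LinearMap.BilinForm.apply_toDual_symm_apply f w⟩
    have hvU : ∀ x, ω v (ef x) = 0 := by
      intro x
      rw [hv]
      exact hf (Submodule.subset_span ⟨x, rfl⟩)
    have hc : ∀ k, ω (d k) v = b.repr v k := by
      intro k
      conv_lhs => rw [← b.sum_repr v]
      rw [map_sum, Finset.sum_eq_single k]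
      · rw [map_smul, hdb, if_pos rfl, smul_eq_mul, mul_one]
      · intro l _ hl
        rw [map_smul, hdb, if_neg hl, smul_zero]
      · intro h
        exact absurd (Finset.mem_univ _) h
    have hc0 : ∀ k, Pos (χ k) → b.repr v k = 0 := by
      intro k hk
      have h1 : ω v (d k) = 0 := hvU (Sum.inr ⟨k, hk⟩)
      rw [← hc, hanti, h1, neg_zero]
    have hv0 : ω v = 0 := by
      refine b.ext fun l => ?_
      rw [LinearMap.zero_apply]
      by_cases hl : Pos (χ l)
      · exact hvU (Sum.inl ⟨l, hl⟩)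
      · have hl' := (pos_or (hχ l)).resolve_left hl
        conv_lhs => rw [← b.sum_repr v]
        rw [map_sum, LinearMap.sum_apply]
        refine Finset.sum_eq_zero fun k _ => ?_
        rw [map_smul, LinearMap.smul_apply]
        by_cases hk : Pos (χ k)
        · rw [hc0 k hk, zero_smul]
        · have hk' := (pos_or (hχ k)).resolve_left hk
          rw [hbb k l, smul_zero]
          intro h
          apply Pos.add hk' hl'
          rw [← neg_add, h, neg_zero]
    apply hf0
    rw [← hv, hv0]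
  refine ⟨S ⊕ S, inferInstance, inferInstance, Basis.mk hli hsp.ge, inv, jj,
    Sum.elim (fun k => χ k.1) (fun k => -χ k.1), hinv, hjj, hj0, fun x y => ?_, fun x => ?_, ?_⟩
  · rw [Basis.mk_apply, Basis.mk_apply, hω]
  · rw [Basis.mk_apply]
    obtain x | x := x
    · exact hb x.1
    · exact hTd x.1
  · rintro (x | x)
    · rfl
    · exact (neg_neg _).symm

end Eig

end Pool.Agent.W5h86.LX
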